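import Pool.Agent.Helper54.TD.Defs

/-!
The local factor of the contribution of a surviving set of indices (module C2 of the TD project
for MP_1d384c_nt).
-/

set_option autoImplicit false

namespace Pool.Agent.Helper99.TDC2

open Finset Module
open Pool.Agent.Helper54.PT

/-! ### The standard form on `F ^ k` -/

section Perp

variable {ℓ : ℕ} [Fact ℓ.Prime] {k : ℕ}

/-- The standard form. -/
def dotB (ℓ k : ℕ) : LinearMap.BilinForm (ZMod ℓ) (Fin k → ZMod ℓ) :=
  dotProductBilin (ZMod ℓ) (ZMod ℓ)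

theorem dotB_apply (a c : Fin k → ZMod ℓ) : dotB ℓ k a c = ∑ i, a i * c i := rfl

theorem dotB_symm (a c : Fin k → ZMod ℓ) : dotB ℓ k a c = dotB ℓ k c a := by
  rw [dotB_apply, dotB_apply]
  exact sum_congr rfl fun i _ => mul_comm _ _

theorem dotB_nondeg : (dotB ℓ k).Nondegenerate := by
  have h : ∀ a : Fin k → ZMod ℓ, (∀ c, dotB ℓ k a c = 0) → a = 0 := by
    intro a ha
    funext i
    have h1 := ha (Pi.single i 1)
    rw [dotB_apply, Finset.sum_eq_single i] at h1
    · simpa using h1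
    · intro j _ hj
      rw [Pi.single_eq_of_ne hj, mul_zero]
    · intro hi
      exact absurd (mem_univ i) hi
  constructor
  · exact h
  · intro a ha
    exact h a fun c => by rw [dotB_symm]; exact ha c

theorem dotB_refl : (dotB ℓ k).IsRefl := fun a c h => by rw [dotB_symm]; exact h

/-- The orthogonal space. -/
def perp (A : Submodule (ZMod ℓ) (Fin k → ZMod ℓ)) : Submodule (ZMod ℓ) (Fin k → ZMod ℓ) :=
  (dotB ℓ k).orthogonal A

theorem mem_perp {A : Submodule (ZMod ℓ) (Fin k → ZMod ℓ)} {n : Fin k → ZMod ℓ} :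
    n ∈ perp A ↔ ∀ a ∈ A, ∑ i, a i * n i = 0 := by
  rw [perp, LinearMap.BilinForm.mem_orthogonal_iff]
  rfl

theorem card_perp (A : Submodule (ZMod ℓ) (Fin k → ZMod ℓ)) :
    Nat.card (perp A) = ℓ ^ (k - finrank (ZMod ℓ) A) := by
  rw [Module.natCard_eq_pow_finrank (K := ZMod ℓ) (V := perp A), Nat.card_zmod, perp,
    LinearMap.BilinForm.finrank_orthogonal dotB_nondeg, Module.finrank_fin_fun]

/-- The double orthogonal. -/
theorem mem_of_perp {A : Submodule (ZMod ℓ) (Fin k → ZMod ℓ)} {a : Fin k → ZMod ℓ}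
    (h : ∀ n ∈ perp A, ∑ i, n i * a i = 0) : a ∈ A := by
  have h1 : a ∈ perp (perp A) := mem_perp.2 h
  rw [perp, perp, LinearMap.BilinForm.orthogonal_orthogonal dotB_nondeg dotB_refl] at h1
  exact h1

end Perp

/-! ### The form on tuples -/

section Form

variable {ℓ : ℕ} [Fact ℓ.Prime] {J : Type} [Fintype J] {k : ℕ}

/-- All rows lie in `A`. -/
def RowIn (A : Submodule (ZMod ℓ) (Fin k → ZMod ℓ)) (x : J × Fin k → ZMod ℓ) : Prop :=
  ∀ j, (fun i => x (j, i)) ∈ A

/-- The sum of the forms of the columns. -/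
def br (β : J → J → ZMod ℓ) (x y : J × Fin k → ZMod ℓ) : ZMod ℓ :=
  ∑ i, bt β (fun j => x (j, i)) (fun j => y (j, i))

/-- A matrix acting on the columns. -/
def mm (M : J → J → ZMod ℓ) (x : J × Fin k → ZMod ℓ) : J × Fin k → ZMod ℓ :=
  fun p => ∑ j', M p.1 j' * x (j', p.2)

/-- A matrix acting on the rows. -/
def Bm (B : Fin k → Fin k → ZMod ℓ) (x : J × Fin k → ZMod ℓ) : J × Fin k → ZMod ℓ :=
  fun p => ∑ i', B p.2 i' * x (p.1, i')

theorem bt_add_left (β : J → J → ZMod ℓ) (x x' y : J → ZMod ℓ) :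
    bt β (x + x') y = bt β x y + bt β x' y := by
  simp only [bt, Pi.add_apply, mul_add, add_mul, sum_add_distrib]

theorem bt_add_right (β : J → J → ZMod ℓ) (x y y' : J → ZMod ℓ) :
    bt β x (y + y') = bt β x y + bt β x y' := by
  simp only [bt, Pi.add_apply, mul_add, sum_add_distrib]

theorem bt_sum_left {ι : Type} (s : Finset ι) (β : J → J → ZMod ℓ) (c : ι → ZMod ℓ)
    (x : ι → J → ZMod ℓ) (y : J → ZMod ℓ) :
    bt β (fun j => ∑ m ∈ s, c m * x m j) y = ∑ m ∈ s, c m * bt β (x m) y := by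
  simp only [bt, mul_sum, sum_mul]
  rw [sum_comm (s := s)]
  refine sum_congr rfl fun i _ => ?_
  rw [sum_comm (s := s)]
  refine sum_congr rfl fun j _ => sum_congr rfl fun m _ => ?_
  ring

theorem br_add_left (β : J → J → ZMod ℓ) (x x' y : J × Fin k → ZMod ℓ) :
    br β (x + x') y = br β x y + br β x' y := by
  simp only [br, ← sum_add_distrib]
  exact sum_congr rfl fun i _ => bt_add_left β (fun j => x (j, i)) (fun j => x' (j, i)) _

theorem br_add_right (β : J → J → ZMod ℓ) (x y y' : J × Fin k → ZMod ℓ) :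
    br β x (y + y') = br β x y + br β x y' := by
  simp only [br, ← sum_add_distrib]
  exact sum_congr rfl fun i _ => bt_add_right β _ (fun j => y (j, i)) (fun j => y' (j, i))

theorem br_sub_right (β : J → J → ZMod ℓ) (x y y' : J × Fin k → ZMod ℓ) :
    br β x (y - y') = br β x y - br β x y' := by
  have h := br_add_right β x (y - y') y'
  rw [sub_add_cancel] at h
  rw [h, add_sub_cancel_right]

theorem br_sub_left (β : J → J → ZMod ℓ) (x x' y : J × Fin k → ZMod ℓ) :
    br β (x - x') y = br β x y - br β x' y := by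
  have h := br_add_left β (x - x') x' y
  rw [sub_add_cancel] at h
  rw [h, add_sub_cancel_right]

theorem br_rows (β : J → J → ZMod ℓ) (x y : J × Fin k → ZMod ℓ) :
    br β x y = ∑ j, ∑ j', β j j' * ∑ i, x (j, i) * y (j', i) := by
  simp only [br, bt, mul_sum]
  rw [sum_comm]
  refine sum_congr rfl fun j _ => ?_
  rw [sum_comm]
  refine sum_congr rfl fun j' _ => sum_congr rfl fun i _ => ?_
  ring

theorem br_symm {β : J → J → ZMod ℓ} (hsym : ∀ i j, β i j = β j i)
    (x y : J × Fin k → ZMod ℓ) : br β x y = br β y x := by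
  rw [br_rows, br_rows, sum_comm]
  refine sum_congr rfl fun j _ => sum_congr rfl fun j' _ => ?_
  rw [hsym j' j]
  congr 1
  exact sum_congr rfl fun i _ => mul_comm _ _

theorem dot_mm {β : J → J → ZMod ℓ} (hsym : ∀ i j, β i j = β j i)
    (X y : J × Fin k → ZMod ℓ) : ∑ p, mm β X p * y p = br β X y := by
  rw [Fintype.sum_prod_type, br_rows, sum_comm (s := (univ : Finset J)) (t := (univ : Finset J))]
  refine sum_congr rfl fun j _ => ?_
  simp only [mm, mul_sum, sum_mul]
  rw [sum_comm]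
  refine sum_congr rfl fun j' _ => sum_congr rfl fun i _ => ?_
  rw [hsym j j']
  ring

theorem mm_mm [DecidableEq J] {M N : J → J → ZMod ℓ}
    (h : ∀ i m, ∑ j, M i j * N j m = if i = m then 1 else 0) (x : J × Fin k → ZMod ℓ) :
    mm M (mm N x) = x := by
  funext p
  have h1 : mm M (mm N x) p = ∑ m, (∑ j, M p.1 j * N j m) * x (m, p.2) := by
    simp only [mm, mul_sum, sum_mul]
    rw [sum_comm]
    exact sum_congr rfl fun _ _ => sum_congr rfl fun _ _ => by ring
  rw [h1]
  simp only [h, ite_mul, one_mul, zero_mul]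
  rw [Finset.sum_ite_eq univ p.1, if_pos (mem_univ _)]

theorem inv_comm [DecidableEq J] {β γ : J → J → ZMod ℓ}
    (h : ∀ i m, ∑ j, γ i j * β j m = if i = m then 1 else 0) (i m : J) :
    ∑ j, β i j * γ j m = if i = m then 1 else 0 := by
  have h1 : (Matrix.of γ) * (Matrix.of β) = 1 := by
    ext i m
    rw [Matrix.mul_apply, Matrix.one_apply]
    exact h i m
  have h2 := mul_eq_one_comm.1 h1
  have h3 := congrFun (congrFun h2 i) m
  rw [Matrix.mul_apply, Matrix.one_apply] at h3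
  exact h3

theorem rowIn_mm {A : Submodule (ZMod ℓ) (Fin k → ZMod ℓ)} (M : J → J → ZMod ℓ)
    {x : J × Fin k → ZMod ℓ} (hx : RowIn A x) : RowIn A (mm M x) := by
  intro j
  have h : (fun i => mm M x (j, i)) = ∑ j', M j j' • (fun i => x (j', i)) := by
    funext i
    rw [Finset.sum_apply]
    rfl
  rw [h]
  exact A.sum_mem fun j' _ => A.smul_mem _ (hx j')

theorem rowIn_mapK [DecidableEq J] {A : Submodule (ZMod ℓ) (Fin k → ZMod ℓ)}
    (T : (J → ZMod ℓ) →+ (J → ZMod ℓ)) {x : J × Fin k → ZMod ℓ} (hx : RowIn A x) :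
    RowIn A (mapK k T x) := by
  have h : mapK k T x = mm (fun j j' => T (fun m => if j' = m then 1 else 0) j) x := by
    funext p
    have h1 := LinearMap.pi_apply_eq_sum_univ (T.toZModLinearMap ℓ) (fun j => x (j, p.2))
    have h2 := congrFun h1 p.1
    rw [Finset.sum_apply] at h2
    refine h2.trans (sum_congr rfl fun j' _ => ?_)
    rw [Pi.smul_apply, smul_eq_mul, mul_comm]
    rfl
  rw [h]
  exact rowIn_mm _ hx

theorem br_perp {A : Submodule (ZMod ℓ) (Fin k → ZMod ℓ)} (β : J → J → ZMod ℓ)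
    {E x : J × Fin k → ZMod ℓ} (hE : RowIn (perp A) E) (hx : RowIn A x) : br β E x = 0 := by
  rw [br_rows]
  refine sum_eq_zero fun j _ => sum_eq_zero fun j' _ => ?_
  have h := mem_perp.1 (hE j) _ (hx j')
  have h1 : ∑ i, E (j, i) * x (j', i) = 0 := by
    rw [← h]
    exact sum_congr rfl fun i _ => mul_comm _ _
  rw [h1, mul_zero]

theorem br_Bm (β : J → J → ZMod ℓ) {B : Fin k → Fin k → ZMod ℓ}
    (hB : ∀ i i', B i i' + B i' i = 0) (x y : J × Fin k → ZMod ℓ) :
    br β (Bm B x) y + br β x (Bm B y) = 0 := by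
  rw [br_rows, br_rows, ← sum_add_distrib]
  refine sum_eq_zero fun j _ => ?_
  rw [← sum_add_distrib]
  refine sum_eq_zero fun j' _ => ?_
  rw [← mul_add]
  have h : ∑ i, Bm B x (j, i) * y (j', i) + ∑ i, x (j, i) * Bm B y (j', i) = 0 := by
    simp only [Bm, sum_mul, mul_sum]
    rw [sum_comm, ← sum_add_distrib]
    refine sum_eq_zero fun i _ => ?_
    rw [← sum_add_distrib]
    refine sum_eq_zero fun i' _ => ?_
    linear_combination x (j, i) * y (j', i') * hB i i'
  rw [h, mul_zero]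

/-- Only the diagonal terms remain. -/
theorem sum_diag {B Q : Fin k → Fin k → ZMod ℓ} (hB : ∀ i i', B i i' + B i' i = 0)
    (hQ : ∀ i i', Q i i' = Q i' i) : ∑ i, ∑ i', B i i' * Q i i' = ∑ i, B i i * Q i i := by
  have h1 : ∑ i, ∑ i', B i i' * Q i i' = ∑ i, B i i * Q i i +
      ∑ p : Fin k × Fin k, if p.1 = p.2 then 0 else B p.1 p.2 * Q p.1 p.2 := by
    rw [Fintype.sum_prod_type, ← sum_add_distrib]
    refine sum_congr rfl fun i _ => ?_
    have h2 : B i i * Q i i = ∑ i', if i = i' then B i i' * Q i i' else 0 := by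
      rw [Finset.sum_ite_eq univ i, if_pos (mem_univ _)]
    rw [h2, ← sum_add_distrib]
    refine sum_congr rfl fun i' _ => ?_
    by_cases h : i = i'
    · rw [if_pos h, if_pos h, add_zero]
    · rw [if_neg h, if_neg h, zero_add]
  rw [h1, Finset.sum_involution (fun p _ => (p.2, p.1)), add_zero]
  · rintro ⟨i, i'⟩ _
    dsimp only
    by_cases h : i = i'
    · rw [if_pos h, if_pos h.symm, add_zero]
    · rw [if_neg h, if_neg (Ne.symm h), hQ i' i]
      linear_combination Q i i' * hB i i'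
  · rintro ⟨i, i'⟩ _ hne heq
    apply hne
    have h := congrArg Prod.fst heq
    dsimp only at h
    rw [if_pos h.symm]
  · intro p _
    exact mem_univ _
  · intro p _
    rfl

theorem br_Bm_T (β : J → J → ZMod ℓ) {B : Fin k → Fin k → ZMod ℓ}
    (hB : ∀ i i', B i i' + B i' i = 0) (T : (J → ZMod ℓ) →+ (J → ZMod ℓ))
    (hT : ∀ v w, bt β w (T v) = bt β v (T w)) (v : J × Fin k → ZMod ℓ) :
    br β (Bm B v) (mapK k T v) =
      ∑ i, B i i * bt β (fun j => v (j, i)) (T fun j => v (j, i)) := by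
  have h1 : br β (Bm B v) (mapK k T v) =
      ∑ i, ∑ i', B i i' * bt β (fun j => v (j, i')) (T fun j => v (j, i)) := by
    rw [br]
    refine sum_congr rfl fun i _ => ?_
    exact bt_sum_left univ β (fun i' => B i i') (fun i' j => v (j, i')) _
  rw [h1]
  exact sum_diag (Q := fun i i' => bt β (fun j => v (j, i')) (T fun j => v (j, i))) hB
    (fun i i' => hT _ _)

/-- The quadratic correction as an additive map. -/
def rho (β : J → J → ZMod ℓ) {B : Fin k → Fin k → ZMod ℓ}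
    (hB : ∀ i i', B i i' + B i' i = 0) (T : (J → ZMod ℓ) →+ (J → ZMod ℓ))
    (hT : ∀ v w, bt β w (T v) = bt β v (T w)) : (J × Fin k → ZMod ℓ) →+ ZMod ℓ where
  toFun v := ∑ i, B i i * bt β (fun j => v (j, i)) (T fun j => v (j, i))
  map_zero' := by
    refine sum_eq_zero fun i _ => ?_
    have h : (fun j : J => (0 : J × Fin k → ZMod ℓ) (j, i)) = 0 := rfl
    rw [h, map_zero]
    simp [bt]
  map_add' v w := by
    rw [← sum_add_distrib]
    refine sum_congr rfl fun i _ => ?_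
    have h : (fun j : J => (v + w) (j, i)) = (fun j => v (j, i)) + fun j => w (j, i) := rfl
    rw [h, map_add, bt_add_left, bt_add_right, bt_add_right,
      hT (fun j => w (j, i)) (fun j => v (j, i))]
    linear_combination bt β (fun j => w (j, i)) (T fun j => v (j, i)) * hB i i

theorem exists_rho (β : J → J → ZMod ℓ) [DecidableEq J] {B : Fin k → Fin k → ZMod ℓ}
    (hB : ∀ i i', B i i' + B i' i = 0) (T : (J → ZMod ℓ) →+ (J → ZMod ℓ))
    (hT : ∀ v w, bt β w (T v) = bt β v (T w)) : ∃ r : J × Fin k → ZMod ℓ, ∀ v : J × Fin k → ZMod ℓ,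
      ∑ p, r p * v p = ∑ i, B i i * bt β (fun j => v (j, i)) (T fun j => v (j, i)) := by
  refine ⟨fun p => rho β hB T hT (fun m => if p = m then 1 else 0), fun v => ?_⟩
  have h1 := LinearMap.pi_apply_eq_sum_univ ((rho β hB T hT).toZModLinearMap ℓ) v
  refine Eq.trans (sum_congr rfl fun p _ => ?_) h1.symm
  rw [smul_eq_mul, mul_comm]
  rfl

end Form

/-! ### The solutions of the linear conditions -/

section Main

variable {ℓ : ℕ} [Fact ℓ.Prime] {J : Type} [Fintype J] [DecidableEq J] {k : ℕ}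
  {β γ : J → J → ZMod ℓ}

omit [DecidableEq J] in
theorem mm_add (M : J → J → ZMod ℓ) (x y : J × Fin k → ZMod ℓ) :
    mm M (x + y) = mm M x + mm M y := by
  funext p
  simp only [mm, Pi.add_apply, mul_add, sum_add_distrib]

omit [DecidableEq J] in
theorem mm_sub (M : J → J → ZMod ℓ) (x y : J × Fin k → ZMod ℓ) :
    mm M (x - y) = mm M x - mm M y := by
  funext p
  simp only [mm, Pi.sub_apply, mul_sub, sum_sub_distrib]

/-- The condition on `x` of all indices of the set. -/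
def Cnd (T : (J → ZMod ℓ) →+ (J → ZMod ℓ))
    (𝒰 : Finset ((J × Fin k → ZMod ℓ) × (J × Fin k → ZMod ℓ))) (b : J × Fin k → ZMod ℓ)
    (x : (J × Fin k → ZMod ℓ) × ZMod ℓ) : Prop :=
  ∀ u ∈ 𝒰, ∑ p, (u.2 p * (b p - mapK k T u.1 p) + x.1 p * u.1 p) + x.2 = 0

omit [DecidableEq J] in
theorem mem_UL' {A : Submodule (ZMod ℓ) (Fin k → ZMod ℓ)} {B : Fin k → Fin k → ZMod ℓ}
    {u₀ u : (J × Fin k → ZMod ℓ) × (J × Fin k → ZMod ℓ)} :
    u ∈ UL γ (LAB A B) u₀ ↔ RowIn A (u.1 - u₀.1) ∧
      RowIn (perp A) (mm γ (u.2 - u₀.2) - Bm B (u.1 - u₀.1)) := by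
  rw [mem_UL]
  constructor
  · intro h
    exact ⟨fun j => (h j).1, fun j => mem_perp.2 fun a ha => (h j).2 a ha⟩
  · rintro ⟨h1, h2⟩ j
    exact ⟨h1 j, fun a ha => mem_perp.1 (h2 j) a ha⟩

theorem val_eq (hsym : ∀ i j, β i j = β j i)
    (hinv : ∀ i m, ∑ j, γ i j * β j m = if i = m then 1 else 0)
    (T : (J → ZMod ℓ) →+ (J → ZMod ℓ)) (b η v₀ w₀ v W : J × Fin k → ZMod ℓ) (ν : ZMod ℓ) :
    ∑ p, ((w₀ + mm β W) p * (b p - mapK k T (v₀ + v) p) + η p * (v₀ + v) p) + ν =
      br β (mm γ w₀ + W) (b - mapK k T v₀ - mapK k T v) + ∑ p, η p * (v₀ p + v p) + ν := by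
  have h1 : mm β (mm γ w₀ + W) = w₀ + mm β W := by
    rw [mm_add, mm_mm (inv_comm hinv)]
  have h2 := dot_mm hsym (mm γ w₀ + W) (b - mapK k T v₀ - mapK k T v)
  rw [h1] at h2
  rw [← h2, sum_add_distrib, map_add]
  congr 2
  refine sum_congr rfl fun p _ => ?_
  simp only [Pi.add_apply, Pi.sub_apply]
  ring

theorem cnd_iff (hsym : ∀ i j, β i j = β j i)
    (hinv : ∀ i m, ∑ j, γ i j * β j m = if i = m then 1 else 0)
    (T : (J → ZMod ℓ) →+ (J → ZMod ℓ))
    {A : Submodule (ZMod ℓ) (Fin k → ZMod ℓ)} {B : Fin k → Fin k → ZMod ℓ}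
    {u₀ : (J × Fin k → ZMod ℓ) × (J × Fin k → ZMod ℓ)} {b : J × Fin k → ZMod ℓ}
    {x : (J × Fin k → ZMod ℓ) × ZMod ℓ} :
    Cnd T (UL γ (LAB A B) u₀) b x ↔ ∀ v W, RowIn A v → RowIn (perp A) (W - Bm B v) →
      br β (mm γ u₀.2 + W) (b - mapK k T u₀.1 - mapK k T v) +
        ∑ p, x.1 p * (u₀.1 p + v p) + x.2 = 0 := by
  constructor
  · intro h v W hv hW
    have h1 := h (u₀.1 + v, u₀.2 + mm β W) (mem_UL'.2 ?_)
    · rw [← val_eq hsym hinv]
      exact h1
    · simp only [add_sub_cancel_left]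
      rw [mm_mm hinv]
      exact ⟨hv, hW⟩
  · intro h u hu
    obtain ⟨h1, h2⟩ := mem_UL'.1 hu
    have h3 := h _ _ h1 h2
    rw [← val_eq hsym hinv, mm_mm (inv_comm hinv)] at h3
    simp only [add_sub_cancel] at h3
    exact h3

/-- The particular solution. -/
def eta0 (β : J → J → ZMod ℓ) (T : (J → ZMod ℓ) →+ (J → ZMod ℓ)) (B : Fin k → Fin k → ZMod ℓ)
    (W₀ b' r : J × Fin k → ZMod ℓ) : J × Fin k → ZMod ℓ :=
  mm β (mapK k T W₀ + Bm B b') + r

omit [DecidableEq J] in
theorem br_T (hsym : ∀ i j, β i j = β j i) (T : (J → ZMod ℓ) →+ (J → ZMod ℓ))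
    (hT : ∀ v w, bt β w (T v) = bt β v (T w)) (W v : J × Fin k → ZMod ℓ) :
    br β W (mapK k T v) = br β (mapK k T W) v := by
  rw [br_symm hsym (mapK k T W) v]
  refine sum_congr rfl fun i _ => ?_
  exact hT (fun j => v (j, i)) (fun j => W (j, i))

omit [DecidableEq J] in
theorem eta0_dot (hsym : ∀ i j, β i j = β j i) (T : (J → ZMod ℓ) →+ (J → ZMod ℓ))
    (B : Fin k → Fin k → ZMod ℓ) (W₀ b' r v : J × Fin k → ZMod ℓ) :
    ∑ p, eta0 β T B W₀ b' r p * v p =
      br β (mapK k T W₀) v + br β (Bm B b') v + ∑ p, r p * v p := by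
  rw [← br_add_left, ← dot_mm hsym, ← sum_add_distrib]
  refine sum_congr rfl fun p _ => ?_
  rw [eta0, Pi.add_apply, add_mul]

/-- The basic identity. -/
theorem basic (hsym : ∀ i j, β i j = β j i)
    (T : (J → ZMod ℓ) →+ (J → ZMod ℓ)) (hT : ∀ v w, bt β w (T v) = bt β v (T w))
    {A : Submodule (ZMod ℓ) (Fin k → ZMod ℓ)} {B : Fin k → Fin k → ZMod ℓ}
    (hB : ∀ i i', B i i' + B i' i = 0) {r : J × Fin k → ZMod ℓ}
    (hr : ∀ v : J × Fin k → ZMod ℓ,
      ∑ p, r p * v p = ∑ i, B i i * bt β (fun j => v (j, i)) (T fun j => v (j, i)))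
    {W₀ b' v₀ v W : J × Fin k → ZMod ℓ} (hb : RowIn A b') (hv : RowIn A v)
    (hW : RowIn (perp A) (W - Bm B v)) :
    br β (W₀ + W) (b' - mapK k T v) + ∑ p, eta0 β T B W₀ b' r p * (v₀ p + v p) +
      (-br β W₀ b' - ∑ p, eta0 β T B W₀ b' r p * v₀ p) = 0 := by
  have e1 := br_T hsym T hT W₀ v
  have e2 : br β W b' + br β (Bm B b') v = 0 := by
    have h1 := br_perp β hW hb
    rw [br_sub_left] at h1
    have h2 := br_Bm β hB v b'
    rw [br_symm hsym v (Bm B b')] at h2
    linear_combination h1 + h2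
  have e3 : br β W (mapK k T v) = ∑ p, r p * v p := by
    have h1 := br_perp β hW (rowIn_mapK T hv)
    rw [br_sub_left, br_Bm_T β hB T hT, ← hr] at h1
    linear_combination h1
  have e4 := eta0_dot hsym T B W₀ b' r v
  have e5 : ∑ p, eta0 β T B W₀ b' r p * (v₀ p + v p) =
      ∑ p, eta0 β T B W₀ b' r p * v₀ p + ∑ p, eta0 β T B W₀ b' r p * v p := by
    rw [← sum_add_distrib]
    exact sum_congr rfl fun p _ => mul_add _ _ _
  rw [e5, br_sub_right, br_add_left, br_add_left]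
  linear_combination e2 - e3 + e4 - e1

/-- The matrix with one row. -/
def one (j₀ : J) (n : Fin k → ZMod ℓ) : J × Fin k → ZMod ℓ := fun p => if p.1 = j₀ then n p.2 else 0

omit [Fintype J] in
theorem rowIn_one {A : Submodule (ZMod ℓ) (Fin k → ZMod ℓ)} (j₀ : J) {n : Fin k → ZMod ℓ}
    (hn : n ∈ A) : RowIn A (one j₀ n) := by
  intro j
  by_cases h : j = j₀
  · have e : (fun i => one j₀ n (j, i)) = n := by
      funext i
      exact if_pos h
    rw [e]
    exact hn
  · have e : (fun i => one j₀ n (j, i)) = 0 := by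
      funext i
      exact if_neg h
    rw [e]
    exact A.zero_mem

theorem dot_one (j₀ : J) (n : Fin k → ZMod ℓ) (x : J × Fin k → ZMod ℓ) :
    ∑ p, x p * one j₀ n p = ∑ i, x (j₀, i) * n i := by
  rw [Fintype.sum_prod_type, Finset.sum_eq_single j₀]
  · exact sum_congr rfl fun i _ => by rw [one, if_pos rfl]
  · intro j _ hj
    exact sum_eq_zero fun i _ => by rw [one, if_neg hj, mul_zero]
  · intro h
    exact absurd (mem_univ _) h

omit [DecidableEq J] in
theorem dot_rows {A : Submodule (ZMod ℓ) (Fin k → ZMod ℓ)} {z v : J × Fin k → ZMod ℓ}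
    (hz : RowIn (perp A) z) (hv : RowIn A v) : ∑ p, z p * v p = 0 := by
  rw [Fintype.sum_prod_type]
  refine sum_eq_zero fun j _ => ?_
  rw [← mem_perp.1 (hz j) _ (hv j)]
  exact sum_congr rfl fun i _ => mul_comm _ _

omit [Fintype J] [DecidableEq J] in
theorem Bm_zero (B : Fin k → Fin k → ZMod ℓ) : Bm B (0 : J × Fin k → ZMod ℓ) = 0 := by
  funext p
  simp [Bm]

omit [Fintype J] [DecidableEq J] in
theorem rowIn_zero (A : Submodule (ZMod ℓ) (Fin k → ZMod ℓ)) :
    RowIn A (0 : J × Fin k → ZMod ℓ) := fun _ => A.zero_mem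

/-- The solutions. -/
theorem sol_iff (hsym : ∀ i j, β i j = β j i)
    (hinv : ∀ i m, ∑ j, γ i j * β j m = if i = m then 1 else 0)
    (T : (J → ZMod ℓ) →+ (J → ZMod ℓ)) (hT : ∀ v w, bt β w (T v) = bt β v (T w))
    {A : Submodule (ZMod ℓ) (Fin k → ZMod ℓ)} {B : Fin k → Fin k → ZMod ℓ}
    (hB : ∀ i i', B i i' + B i' i = 0) {r : J × Fin k → ZMod ℓ}
    (hr : ∀ v : J × Fin k → ZMod ℓ,
      ∑ p, r p * v p = ∑ i, B i i * bt β (fun j => v (j, i)) (T fun j => v (j, i)))
    {u₀ : (J × Fin k → ZMod ℓ) × (J × Fin k → ZMod ℓ)} {b : J × Fin k → ZMod ℓ}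
    (hb : RowIn A (b - mapK k T u₀.1)) (x : (J × Fin k → ZMod ℓ) × ZMod ℓ) :
    Cnd T (UL γ (LAB A B) u₀) b x ↔
      RowIn (perp A) (x.1 - eta0 β T B (mm γ u₀.2) (b - mapK k T u₀.1) r) ∧
      x.2 = -br β (mm γ u₀.2) (b - mapK k T u₀.1) - ∑ p, x.1 p * u₀.1 p := by
  rw [cnd_iff hsym hinv]
  set W₀ := mm γ u₀.2 with hW₀
  set b' := b - mapK k T u₀.1 with hb'
  set η := eta0 β T B W₀ b' r with hη
  have key : ∀ v W : J × Fin k → ZMod ℓ, RowIn A v → RowIn (perp A) (W - Bm B v) →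
      (br β (W₀ + W) (b' - mapK k T v) + ∑ p, x.1 p * (u₀.1 p + v p) + x.2 = 0 ↔
        ∑ p, (x.1 - η) p * v p +
          (x.2 + br β W₀ b' + ∑ p, x.1 p * u₀.1 p) = 0) := by
    intro v W hv hW
    have h1 := basic (v₀ := u₀.1) (W₀ := W₀) hsym T hT hB hr hb hv hW
    rw [← hη] at h1
    have h2 : ∑ p, x.1 p * (u₀.1 p + v p) = ∑ p, x.1 p * u₀.1 p + ∑ p, x.1 p * v p := by
      rw [← sum_add_distrib]
      exact sum_congr rfl fun p _ => mul_add _ _ _
    have h3 : ∑ p, η p * (u₀.1 p + v p) = ∑ p, η p * u₀.1 p + ∑ p, η p * v p := by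
      rw [← sum_add_distrib]
      exact sum_congr rfl fun p _ => mul_add _ _ _
    have h4 : ∑ p, (x.1 - η) p * v p = ∑ p, x.1 p * v p - ∑ p, η p * v p := by
      rw [← sum_sub_distrib]
      exact sum_congr rfl fun p _ => by rw [Pi.sub_apply, sub_mul]
    rw [h3] at h1
    rw [h2, h4]
    constructor
    · intro h
      linear_combination h - h1
    · intro h
      linear_combination h + h1
  constructor
  · intro h
    have h0 := (key 0 0 (rowIn_zero A) (by
      rw [Bm_zero, sub_zero]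
      exact rowIn_zero _)).1 (h 0 0 (rowIn_zero A) (by
        rw [Bm_zero, sub_zero]
        exact rowIn_zero _))
    have h0' : ∑ p, (x.1 - η) p * (0 : J × Fin k → ZMod ℓ) p = 0 :=
      sum_eq_zero fun p _ => mul_zero _
    rw [h0', zero_add] at h0
    refine ⟨fun j => mem_perp.2 fun a ha => ?_, by linear_combination h0⟩
    have hv := rowIn_one j ha
    have hW : RowIn (perp A) (Bm B (one j a) - Bm B (one j a)) := by
      rw [sub_self]
      exact rowIn_zero _
    have h1 := (key _ _ hv hW).1 (h _ _ hv hW)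
    rw [h0, add_zero, dot_one] at h1
    rw [← h1]
    exact sum_congr rfl fun i _ => mul_comm _ _
  · rintro ⟨h1, h2⟩ v W hv hW
    rw [key v W hv hW, dot_rows h1 hv, h2]
    ring

/-- No solutions. -/
theorem no_sol (hsym : ∀ i j, β i j = β j i)
    (hinv : ∀ i m, ∑ j, γ i j * β j m = if i = m then 1 else 0)
    (T : (J → ZMod ℓ) →+ (J → ZMod ℓ))
    {A : Submodule (ZMod ℓ) (Fin k → ZMod ℓ)} {B : Fin k → Fin k → ZMod ℓ}
    {u₀ : (J × Fin k → ZMod ℓ) × (J × Fin k → ZMod ℓ)} {b : J × Fin k → ZMod ℓ}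
    {x : (J × Fin k → ZMod ℓ) × ZMod ℓ} (h : Cnd T (UL γ (LAB A B) u₀) b x) :
    RowIn A (b - mapK k T u₀.1) := by
  rw [cnd_iff hsym hinv] at h
  set b' := b - mapK k T u₀.1 with hb'
  have h0 := h 0 0 (rowIn_zero A) (by
    rw [Bm_zero, sub_zero]
    exact rowIn_zero _)
  rw [map_zero, sub_zero, add_zero] at h0
  have h1 : ∀ W, RowIn (perp A) W → br β W b' = 0 := by
    intro W hW
    have h2 := h 0 W (rowIn_zero A) (by
      rw [Bm_zero, sub_zero]
      exact hW)
    rw [map_zero, sub_zero, br_add_left] at h2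
    linear_combination h2 - h0
  have h3 : RowIn A (mm β b') := by
    intro j
    refine mem_of_perp fun n hn => ?_
    have h4 := h1 _ (rowIn_one j hn)
    rw [br_symm hsym, ← dot_mm hsym, dot_one] at h4
    rw [← h4]
    exact sum_congr rfl fun i _ => mul_comm _ _
  have h5 := rowIn_mm γ h3
  rw [mm_mm hinv] at h5
  exact h5

/-! ### The character sum -/

theorem ee_add {ℓ : ℕ} [NeZero ℓ] (x y : ZMod ℓ) : ee (x + y) = ee x * ee y :=
  AddChar.map_add_eq_mul _ x y

theorem ee_zero {ℓ : ℕ} [NeZero ℓ] : ee (0 : ZMod ℓ) = 1 := AddChar.map_zero_eq_one _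

theorem ee_eq_one {ℓ : ℕ} [NeZero ℓ] {x : ZMod ℓ} (h : ee x = 1) : x = 0 := by
  apply ZMod.injective_stdAddChar
  rw [AddChar.map_zero_eq_one]
  exact h

open Classical in
theorem card_rows (A : Submodule (ZMod ℓ) (Fin k → ZMod ℓ)) :
    (univ.filter fun z : J × Fin k → ZMod ℓ => RowIn (perp A) z).card =
      ℓ ^ (Fintype.card J * (k - finrank (ZMod ℓ) A)) := by
  have e : {z : J × Fin k → ZMod ℓ // RowIn (perp A) z} ≃ (J → perp A) :=
    { toFun := fun z j => ⟨fun i => z.1 (j, i), z.2 j⟩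
      invFun := fun f => ⟨fun p => (f p.1).1 p.2, fun j => (f j).2⟩
      left_inv := fun z => rfl
      right_inv := fun f => rfl }
  rw [← Fintype.card_subtype, ← Nat.card_eq_fintype_card, Nat.card_congr e, Nat.card_pi,
    Finset.prod_const, card_perp, ← pow_mul, Finset.card_univ, mul_comm]

open Classical in
theorem char_sum_pos {A : Submodule (ZMod ℓ) (Fin k → ZMod ℓ)} {y : J × Fin k → ZMod ℓ}
    (hy : RowIn A y) : (∑ z : J × Fin k → ZMod ℓ,
      if RowIn (perp A) z then ee (-∑ p, z p * y p) else 0) =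
        (ℓ : ℂ) ^ (Fintype.card J * (k - finrank (ZMod ℓ) A)) := by
  have h1 : (∑ z : J × Fin k → ZMod ℓ,
      if RowIn (perp A) z then ee (-∑ p, z p * y p) else 0) =
      ∑ z : J × Fin k → ZMod ℓ, if RowIn (perp A) z then (1 : ℂ) else 0 := by
    refine sum_congr rfl fun z _ => ?_
    by_cases hz : RowIn (perp A) z
    · rw [if_pos hz, if_pos hz, dot_rows hz hy, neg_zero, ee_zero]
    · rw [if_neg hz, if_neg hz]
  rw [h1, Finset.sum_boole, card_rows]
  push_cast
  rfl

open Classical in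
theorem char_sum_neg {A : Submodule (ZMod ℓ) (Fin k → ZMod ℓ)} {y : J × Fin k → ZMod ℓ}
    (hy : ¬ RowIn A y) : (∑ z : J × Fin k → ZMod ℓ,
      if RowIn (perp A) z then ee (-∑ p, z p * y p) else 0) = 0 := by
  obtain ⟨j, hj⟩ : ∃ j, (fun i => y (j, i)) ∉ A := by
    by_contra hno
    push Not at hno
    exact hy hno
  obtain ⟨n, hn, hne⟩ : ∃ n ∈ perp A, ∑ i, n i * y (j, i) ≠ 0 := by
    by_contra hno
    push Not at hno
    exact hj (mem_of_perp hno)
  set S := ∑ z : J × Fin k → ZMod ℓ,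
      if RowIn (perp A) z then ee (-∑ p, z p * y p) else 0 with hS
  have hrow : RowIn (perp A) (one j n) := rowIn_one j hn
  have hdot : ∑ p, one j n p * y p = ∑ i, n i * y (j, i) := by
    have h := dot_one j n y
    have e1 : ∑ p, one j n p * y p = ∑ p, y p * one j n p :=
      sum_congr rfl fun p _ => mul_comm _ _
    rw [e1, h]
    exact sum_congr rfl fun i _ => mul_comm _ _
  have h1 : S = ee (-∑ i, n i * y (j, i)) * S := by
    conv_lhs => rw [hS, ← Equiv.sum_comp (Equiv.addLeft (one j n))]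
    rw [hS, mul_sum]
    refine sum_congr rfl fun z _ => ?_
    have e1 : (Equiv.addLeft (one j n)) z = one j n + z := rfl
    rw [e1]
    have e2 : RowIn (perp A) (one j n + z) ↔ RowIn (perp A) z := by
      constructor
      · intro h j'
        have h2 := (perp A).sub_mem (h j') (hrow j')
        have e3 : (fun i => (one j n + z) (j', i)) - (fun i => one j n (j', i)) =
            fun i => z (j', i) := by
          funext i
          simp
        rw [e3] at h2
        exact h2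
      · intro h j'
        exact (perp A).add_mem (hrow j') (h j')
    by_cases hz : RowIn (perp A) z
    · rw [if_pos (e2.2 hz), if_pos hz, ← ee_add]
      congr 1
      have e3 : ∑ p, (one j n + z) p * y p = ∑ p, one j n p * y p + ∑ p, z p * y p := by
        rw [← sum_add_distrib]
        exact sum_congr rfl fun p _ => add_mul _ _ _
      rw [e3, hdot]
      ring
    · rw [if_neg (fun h => hz (e2.1 h)), if_neg hz, mul_zero]
  have h2 : ee (-∑ i, n i * y (j, i)) ≠ 1 := by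
    intro h
    have h3 := ee_eq_one h
    exact hne (neg_eq_zero.1 h3)
  have h3 : (ee (-∑ i, n i * y (j, i)) - 1) * S = 0 := by linear_combination -h1
  exact (mul_eq_zero.1 h3).resolve_left (sub_ne_zero.2 h2)

open Classical in
/-- The sum over the solutions. -/
theorem sol_sum {A : Submodule (ZMod ℓ) (Fin k → ZMod ℓ)} (η₀ v₀ y : J × Fin k → ZMod ℓ)
    (c κ : ZMod ℓ) (P : (J × Fin k → ZMod ℓ) × ZMod ℓ → Prop)
    (hP : ∀ x, P x ↔ RowIn (perp A) (x.1 - η₀) ∧ x.2 = -c - ∑ p, x.1 p * v₀ p) :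
    (∑ x : (J × Fin k → ZMod ℓ) × ZMod ℓ,
      if P x then ee (-(∑ p, x.1 p * y p + x.2 * κ)) else 0) =
      ee (-∑ p, η₀ p * (y p - κ * v₀ p) + κ * c) * ∑ z : J × Fin k → ZMod ℓ,
        if RowIn (perp A) z then ee (-∑ p, z p * (y p - κ * v₀ p)) else 0 := by
  rw [Fintype.sum_prod_type, ← Equiv.sum_comp (Equiv.addLeft η₀), mul_sum]
  refine sum_congr rfl fun z _ => ?_
  have e1 : (Equiv.addLeft η₀) z = η₀ + z := rfl
  rw [e1, Finset.sum_eq_single (-c - ∑ p, (η₀ + z) p * v₀ p)]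
  · have e2 : P (η₀ + z, -c - ∑ p, (η₀ + z) p * v₀ p) ↔ RowIn (perp A) z := by
      rw [hP]
      simp
    by_cases hz : RowIn (perp A) z
    · rw [if_pos (e2.2 hz), if_pos hz, ← ee_add]
      congr 1
      simp only [Pi.add_apply, add_mul, mul_sub, sum_add_distrib, sum_sub_distrib]
      have e3 : ∀ w : J × Fin k → ZMod ℓ, ∑ p, w p * (κ * v₀ p) = κ * ∑ p, w p * v₀ p := by
        intro w
        rw [mul_sum]
        exact sum_congr rfl fun p _ => by ring
      rw [e3, e3]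
      ring
    · rw [if_neg (fun h => hz (e2.1 h)), if_neg hz, mul_zero]
  · intro ν _ hν
    rw [if_neg]
    intro h
    exact hν ((hP _).1 h).2
  · intro h
    exact absurd (mem_univ _) h

end Main

end Pool.Agent.Helper99.TDC2

namespace Pool.Agent.Helper54.PT

open Polynomial Finset Filter Topology Module
open Pool.Agent.Helper99.TDC2

variable {ℓ : ℕ} [Fact ℓ.Prime] {J : Type} [Fintype J] [DecidableEq J] {β γ : J → J → ZMod ℓ}

/-- C2: the local factor -/
theorem locSum_UL (hsym : ∀ i j, β i j = β j i)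
    (hinv : ∀ i k, ∑ j, γ i j * β j k = if i = k then 1 else 0)
    (T : (J → ZMod ℓ) →+ (J → ZMod ℓ)) (hT : ∀ v w, bt β w (T v) = bt β v (T w)) {k : ℕ}
    (A : Submodule (ZMod ℓ) (Fin k → ZMod ℓ)) (B : Fin k → Fin k → ZMod ℓ)
    (hB : ∀ i i', B i i' + B i' i = 0) (u₀ : (J × Fin k → ZMod ℓ) × (J × Fin k → ZMod ℓ))
    (b y : J × Fin k → ZMod ℓ) (κ : ZMod ℓ) :
    (((∀ j, (fun i => b (j, i) - mapK k T u₀.1 (j, i)) ∈ A) ∧
        ∀ j, (fun i => y (j, i) - κ * u₀.1 (j, i)) ∈ A) →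
      locSum (mapK k T) (UL γ (LAB A B) u₀) b y κ =
        (ℓ : ℂ) ^ (Fintype.card J * (k - finrank (ZMod ℓ) A)) *
          ee (phs β T B (fun i j => (rows γ u₀ j).2 i) κ
            (fun p => b p - mapK k T u₀.1 p) (fun p => y p - κ * u₀.1 p))) ∧
    ((¬ ((∀ j, (fun i => b (j, i) - mapK k T u₀.1 (j, i)) ∈ A) ∧
        ∀ j, (fun i => y (j, i) - κ * u₀.1 (j, i)) ∈ A)) →
      locSum (mapK k T) (UL γ (LAB A B) u₀) b y κ = 0) := by
  classical
  obtain ⟨r, hr⟩ := exists_rho β hB T hT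
  -- the sum when `b'` has rows in `A`
  have hsum : RowIn A (b - mapK k T u₀.1) →
      locSum (mapK k T) (UL γ (LAB A B) u₀) b y κ =
      ee (-∑ p, eta0 β T B (mm γ u₀.2) (b - mapK k T u₀.1) r p * (y p - κ * u₀.1 p) +
        κ * br β (mm γ u₀.2) (b - mapK k T u₀.1)) * ∑ z : J × Fin k → ZMod ℓ,
        if RowIn (perp A) z then ee (-∑ p, z p * (y p - κ * u₀.1 p)) else 0 := by
    intro hb
    rw [← sol_sum (A := A) _ u₀.1 y _ κ (Cnd T (UL γ (LAB A B) u₀) b)
      (fun x => sol_iff hsym hinv T hT hB hr hb x), locSum]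
    refine sum_congr (Finset.ext fun x => by simp only [mem_univ]) fun x _ => ?_
    by_cases hx : Cnd T (UL γ (LAB A B) u₀) b x
    · rw [if_pos hx]
      exact if_pos hx
    · rw [if_neg hx]
      exact if_neg hx
  constructor
  · rintro ⟨hb, hy⟩
    have hb' : RowIn A (b - mapK k T u₀.1) := hb
    have hy' : RowIn A (fun p => y p - κ * u₀.1 p) := hy
    rw [hsum hb', char_sum_pos hy', mul_comm]
    congr 2
    rw [eta0_dot hsym, hr]
    show -(br β (mapK k T (mm γ u₀.2)) (fun p => y p - κ * u₀.1 p) +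
      br β (Bm B (b - mapK k T u₀.1)) (fun p => y p - κ * u₀.1 p) + _) + κ * _ = _
    have e1 : br β (Bm B (b - mapK k T u₀.1)) (fun p => y p - κ * u₀.1 p) =
        ∑ i, ∑ i', B i i' * bt β (fun j => (b - mapK k T u₀.1) (j, i'))
          (fun j => y (j, i) - κ * u₀.1 (j, i)) := by
      rw [br]
      refine sum_congr rfl fun i _ => ?_
      exact bt_sum_left univ β (fun i' => B i i') (fun i' j => (b - mapK k T u₀.1) (j, i')) _
    rw [e1, phs]
    have e2 : br β (mapK k T (mm γ u₀.2)) (fun p => y p - κ * u₀.1 p) =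
        ∑ i, bt β (T fun j => (rows γ u₀ j).2 i) (fun j => y (j, i) - κ * u₀.1 (j, i)) := rfl
    have e3 : br β (mm γ u₀.2) (b - mapK k T u₀.1) =
        ∑ i, bt β (fun j => (rows γ u₀ j).2 i) (fun j => b (j, i) - mapK k T u₀.1 (j, i)) := rfl
    rw [e2, e3]
    simp only [Pi.sub_apply]
    ring
  · intro hno
    by_cases hb : RowIn A (b - mapK k T u₀.1)
    · have hy : ¬ RowIn A (fun p => y p - κ * u₀.1 p) := fun hy => hno ⟨hb, hy⟩
      rw [hsum hb, char_sum_neg hy, mul_zero]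
    · rw [locSum]
      refine sum_eq_zero fun x _ => ?_
      refine if_neg fun hx => hb ?_
      exact no_sol hsym hinv T (x := x) hx

end Pool.Agent.Helper54.PT
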