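import Pool.Agent.Helper54.TD.Defs

/-!
Powers of the number of elements of the formal Selmer groups (module A1 of the TD project for
MP_1d384c_nt).
-/

set_option autoImplicit false

namespace Pool.Agent.Helper54.PT

open Polynomial Finset Filter Topology Module

section Moments

variable {ℓ : ℕ} [Fact ℓ.Prime] {σ : Type} [Fintype σ] [DecidableEq σ] (X : PData ℓ σ)
  {J : Type} [Fintype J] [DecidableEq J] (τ : (J → ZMod ℓ) →+ (J → Option σ → ZMod ℓ))
  (H : (Option σ → J → ZMod ℓ) → (Option σ → J → ZMod ℓ) → (Option σ → ZMod ℓ) → Prop)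

/-- A1: powers of the number of elements -/
theorem card_GD_tauK (k : ℕ) (κ₀ : σ → ZMod ℓ) (D : Finset X.P) :
    ((∀ r, kap X D (some r) = κ₀ r) →
      (GD X (tauK k τ) (Hk (HK k H) κ₀) D).card = (GD X τ H D).card ^ k) ∧
    ((¬ ∀ r, kap X D (some r) = κ₀ r) → (GD X (tauK k τ) (Hk (HK k H) κ₀) D).card = 0) := by
  classical
  constructor
  · intro hκ
    rw [← Fintype.card_piFinset_const]
    refine Finset.card_nbij' (fun x i => (fun s j => x.1 s (j, i), fun p j => x.2 p (j, i)))
      (fun f => (fun s p => (f p.2).1 s p.1, fun q p => (f p.2).2 q p.1)) ?_ ?_ ?_ ?_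
    · intro x hx
      rw [mem_coe, GD, mem_filter] at hx
      rw [mem_coe, Fintype.mem_piFinset]
      intro i
      rw [GD, mem_filter]
      exact ⟨mem_univ _, hx.2.1.1 i, fun p j => hx.2.2 p (j, i)⟩
    · intro f hf
      rw [mem_coe, Fintype.mem_piFinset] at hf
      rw [mem_coe, GD, mem_filter]
      refine ⟨mem_univ _, ⟨fun i => ?_, hκ⟩, fun p q => ?_⟩
      · have h := hf i
        rw [GD, mem_filter] at h
        exact h.2.1
      · have h := hf q.2
        rw [GD, mem_filter] at h
        exact h.2.2 p q.1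
    · intro x _
      rfl
    · intro f _
      rfl
  · intro hκ
    rw [card_eq_zero, eq_empty_iff_forall_notMem]
    intro x hx
    rw [GD, mem_filter] at hx
    exact hκ hx.2.1.2

end Moments

end Pool.Agent.Helper54.PT
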