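import Pool.Agent.Helper54.TD.Defs

/-!
The contribution of a set of indices as a sum of products of local factors (module C1 of the TD
project for MP_1d384c_nt).
-/

set_option autoImplicit false

namespace Pool.Agent.Helper99.TDC1

open Finset Module
open Pool.Agent.Helper54.PT

theorem ee_add {ℓ : ℕ} [NeZero ℓ] (x y : ZMod ℓ) : ee (x + y) = ee x * ee y :=
  AddChar.map_add_eq_mul _ x y

theorem ee_sum {ℓ : ℕ} [NeZero ℓ] {ι : Type} (s : Finset ι) (f : ι → ZMod ℓ) :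
    ee (∑ i ∈ s, f i) = ∏ i ∈ s, ee (f i) := by
  classical
  induction s using Finset.induction_on with
  | empty => exact AddChar.map_zero_eq_one _
  | insert a s ha ih => rw [Finset.sum_insert ha, Finset.prod_insert ha, ee_add, ih]

theorem sum_ee {ℓ : ℕ} [Fact ℓ.Prime] (m : ZMod ℓ) :
    ∑ γ : ZMod ℓ, ee (γ * m) = if m = 0 then (ℓ : ℂ) else 0 := by
  have h := AddChar.sum_mulShift m (ZMod.isPrimitive_stdAddChar ℓ)
  rw [ZMod.card] at h
  rw [← Nat.cast_zero (R := ℂ), ← Nat.cast_ite]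
  exact h

section

variable {ℓ : ℕ} [Fact ℓ.Prime] {σ : Type} {U : Type}

open Classical in
/-- The main term as a sum. -/
theorem mt_eq (θ : U → Option σ → ZMod ℓ) {𝒰 : Finset U} (h𝒰 : 𝒰.Nonempty) (n : ℕ) :
    mt θ 𝒰 n = ∑ γ : ZMod ℓ,
      if (∀ u ∈ 𝒰, (∀ r, θ u (some r) = 0) ∧ θ u none = γ) then ee (γ * (n : ZMod ℓ)) else 0 := by
  obtain ⟨u, hu⟩ := h𝒰
  rw [Pool.Agent.Helper54.PT.mt]
  split_ifs with h
  · rw [Finset.sum_eq_single h.choose, if_pos h.choose_spec]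
    · intro γ _ hγ
      rw [if_neg]
      intro h'
      exact hγ (((h' u hu).2).symm.trans (h.choose_spec u hu).2)
    · intro h'
      exact absurd (mem_univ _) h'
  · symm
    refine sum_eq_zero fun γ _ => if_neg fun h' => h ⟨γ, h'⟩

end

section

variable {ℓ : ℕ} [Fact ℓ.Prime] {σ : Type} [Fintype σ] [DecidableEq σ] {J : Type} [Fintype J]
  [DecidableEq J] (τ : (J → ZMod ℓ) →+ (J → Option σ → ZMod ℓ))
  (𝒰 : Finset ((J → ZMod ℓ) × (J → ZMod ℓ)))

/-- The condition at the place `s`. -/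
def PC (s : Option σ) (b η : J → ZMod ℓ) (ν : ZMod ℓ) : Prop :=
  ∀ u ∈ 𝒰, ∑ j, (u.2 j * (b j - τ u.1 j s) + η j * u.1 j) + ν = 0

omit [Fintype σ] [DecidableEq σ] in
open Classical in
theorem locSum_eq (s : Option σ) (b y : J → ZMod ℓ) (κ : ZMod ℓ) :
    locSum (tauS τ s) 𝒰 b y κ = ∑ x : (J → ZMod ℓ) × ZMod ℓ,
      if PC τ 𝒰 s b x.1 x.2 then ee (-(∑ j, x.1 j * y j + x.2 * κ)) else 0 := by
  rw [locSum]
  refine sum_congr (Finset.ext fun x => by simp only [mem_univ]) fun x _ => ?_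
  by_cases hx : PC τ 𝒰 s b x.1 x.2
  · rw [if_pos hx]
    exact if_pos hx
  · rw [if_neg hx]
    exact if_neg hx

open Classical in
/-- The product of the local factors. -/
theorem prod_locSum (b y : Option σ → J → ZMod ℓ) (κ : Option σ → ZMod ℓ) :
    ∏ s, locSum (tauS τ s) 𝒰 (b s) (y s) (κ s) =
      ∑ z : (Option σ → J → ZMod ℓ) × (Option σ → ZMod ℓ),
        if ∀ s, PC τ 𝒰 s (b s) (z.1 s) (z.2 s) then
          ee (-(∑ s, ∑ j, z.1 s j * y s j + ∑ s, z.2 s * κ s)) else 0 := by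
  simp only [locSum_eq]
  rw [Finset.prod_univ_sum, Fintype.piFinset_univ,
    ← Equiv.sum_comp (Equiv.arrowProdEquivProdArrow (Option σ) (fun _ => J → ZMod ℓ)
      (fun _ => ZMod ℓ))]
  refine sum_congr rfl fun p _ => ?_
  rw [Finset.prod_ite_zero]
  have e1 : (∀ i ∈ (univ : Finset (Option σ)), PC τ 𝒰 i (b i) (p i).1 (p i).2) ↔
      ∀ s, PC τ 𝒰 s (b s) (((Equiv.arrowProdEquivProdArrow (Option σ) (fun _ => J → ZMod ℓ)
      (fun _ => ZMod ℓ)) p).1 s) (((Equiv.arrowProdEquivProdArrow (Option σ)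
      (fun _ => J → ZMod ℓ) (fun _ => ZMod ℓ)) p).2 s) :=
    ⟨fun h s => h s (mem_univ s), fun h s _ => h s⟩
  by_cases h : ∀ i ∈ (univ : Finset (Option σ)), PC τ 𝒰 i (b i) (p i).1 (p i).2
  · rw [if_pos h, if_pos (e1.1 h), ← ee_sum]
    congr 1
    rw [← sum_add_distrib, ← sum_neg_distrib]
    rfl
  · rw [if_neg h, if_neg fun h' => h (e1.2 h')]

open Classical in
/-- The sum over `η` and `μ`. -/
theorem sum_eta_mu (b y : Option σ → J → ZMod ℓ) (κ : Option σ → ZMod ℓ) (n : ℕ)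
    (γ : ZMod ℓ) :
    ∑ z : (Option σ → J → ZMod ℓ) × (Option σ → ZMod ℓ),
      (ee (-(∑ s, ∑ j, z.1 s j * y s j + ∑ s, z.2 s * κ s)) *
        if (∀ u ∈ 𝒰, (∀ r, thet τ b z.1 z.2 u (some r) = 0) ∧ thet τ b z.1 z.2 u none = γ) then
          ee (γ * (n : ZMod ℓ)) else 0) =
      ee (γ * ((n : ZMod ℓ) - κ none)) *
        ∏ s, locSum (tauS τ s) 𝒰 (b s) (y s) (κ s) := by
  rw [prod_locSum, Fintype.sum_prod_type, Fintype.sum_prod_type, mul_sum]
  refine sum_congr rfl fun η _ => ?_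
  rw [← Equiv.sum_comp (Equiv.addRight (Pi.single none γ : Option σ → ZMod ℓ)), mul_sum]
  refine sum_congr rfl fun ν _ => ?_
  have e0 : (Equiv.addRight (Pi.single none γ : Option σ → ZMod ℓ)) ν =
      ν + Pi.single none γ := rfl
  rw [e0]
  have e1 : (∀ u ∈ 𝒰, (∀ r, thet τ b η (ν + Pi.single none γ) u (some r) = 0) ∧
      thet τ b η (ν + Pi.single none γ) u none = γ) ↔
      ∀ s, PC τ 𝒰 s (b s) (η s) (ν s) := by
    have h1 : ∀ u r, thet τ b η (ν + Pi.single none γ) u (some r) =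
        ∑ j, (u.2 j * (b (some r) j - τ u.1 j (some r)) + η (some r) j * u.1 j) +
          ν (some r) := by
      intro u r
      rw [thet, Pi.add_apply, Pi.single_eq_of_ne (by simp), add_zero]
    have h2 : ∀ u, thet τ b η (ν + Pi.single none γ) u none =
        ∑ j, (u.2 j * (b none j - τ u.1 j none) + η none j * u.1 j) + ν none + γ := by
      intro u
      rw [thet, Pi.add_apply, Pi.single_eq_same]
      ring
    constructor
    · intro h s u hu
      rcases s with _ | r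
      · have h3 := (h u hu).2
        rw [h2] at h3
        linear_combination h3
      · rw [← h1]
        exact (h u hu).1 r
    · intro h u hu
      refine ⟨fun r => ?_, ?_⟩
      · rw [h1]
        exact h (some r) u hu
      · rw [h2, h none u hu, zero_add]
  by_cases h : ∀ s, PC τ 𝒰 s (b s) (η s) (ν s)
  · rw [if_pos (e1.2 h), if_pos h, ← ee_add, ← ee_add]
    congr 1
    have e2 : ∑ s, (ν + Pi.single none γ : Option σ → ZMod ℓ) s * κ s =
        ∑ s, ν s * κ s + γ * κ none := by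
      simp only [Pi.add_apply, add_mul, sum_add_distrib]
      congr 1
      rw [Finset.sum_eq_single none]
      · rw [Pi.single_eq_same]
      · intro s _ hs
        rw [Pi.single_eq_of_ne hs, zero_mul]
      · intro h'
        exact absurd (mem_univ _) h'
    rw [e2]
    ring
  · rw [if_neg (fun h' => h (e1.1 h')), if_neg h, mul_zero, mul_zero]

end

end Pool.Agent.Helper99.TDC1

namespace Pool.Agent.Helper54.PT

open Polynomial Finset Filter Topology Module
open Pool.Agent.Helper99.TDC1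

variable {ℓ : ℕ} [Fact ℓ.Prime] {σ : Type} [Fintype σ] [DecidableEq σ] {J : Type} [Fintype J]
  [DecidableEq J] {τ : (J → ZMod ℓ) →+ (J → Option σ → ZMod ℓ)}
  {H : (Option σ → J → ZMod ℓ) → (Option σ → J → ZMod ℓ) → (Option σ → ZMod ℓ) → Prop}

open Classical in
/-- C1: the contribution of a set of indices as a sum of products of local factors -/
theorem contrib_locSum (κ₀ : σ → ZMod ℓ) (𝒰 : Finset ((J → ZMod ℓ) × (J → ZMod ℓ)))
    (h𝒰 : 𝒰.Nonempty) (n : ℕ) :
    ∑ b : Option σ → J → ZMod ℓ, ∑ η : Option σ → J → ZMod ℓ, ∑ μ : Option σ → ZMod ℓ,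
      hatH (Hk H κ₀) b η μ * mt (thet τ b η μ) 𝒰 n =
      (ℓ : ℂ) / (ℓ : ℂ) ^ ((Fintype.card J + 1) * (Fintype.card σ + 1)) *
        ∑ x : (Option σ → J → ZMod ℓ) × (Option σ → J → ZMod ℓ),
          if H x.1 x.2 (kn κ₀ n) then
            ∏ s, locSum (tauS τ s) 𝒰 (x.1 s) (x.2 s) (kn κ₀ n s) else 0 := by
  rw [Fintype.sum_prod_type, mul_sum]
  refine sum_congr rfl fun b _ => ?_
  set C : ℂ := (ℓ : ℂ) ^ ((Fintype.card J + 1) * (Fintype.card σ + 1)) with hC
  have e1 : ∑ η : Option σ → J → ZMod ℓ, ∑ μ : Option σ → ZMod ℓ,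
      hatH (Hk H κ₀) b η μ * mt (thet τ b η μ) 𝒰 n =
      ∑ z : (Option σ → J → ZMod ℓ) × (Option σ → ZMod ℓ),
        ∑ w : (Option σ → J → ZMod ℓ) × (Option σ → ZMod ℓ), ∑ γ : ZMod ℓ,
          (if Hk H κ₀ b w.1 w.2 then C⁻¹ else 0) *
            (ee (-(∑ s, ∑ j, z.1 s j * w.1 s j + ∑ s, z.2 s * w.2 s)) *
              if (∀ u ∈ 𝒰, (∀ r, thet τ b z.1 z.2 u (some r) = 0) ∧
                thet τ b z.1 z.2 u none = γ) then ee (γ * (n : ZMod ℓ)) else 0) := by
    rw [Fintype.sum_prod_type]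
    refine sum_congr rfl fun η _ => sum_congr rfl fun μ _ => ?_
    rw [mt_eq _ h𝒰, hatH, ← hC, Fintype.sum_prod_type, Finset.sum_div, Finset.sum_mul]
    refine sum_congr rfl fun y _ => ?_
    rw [Finset.sum_div, Finset.sum_mul]
    refine sum_congr rfl fun κ _ => ?_
    rw [Finset.mul_sum]
    refine sum_congr rfl fun γ _ => ?_
    by_cases h : Hk H κ₀ b y κ
    · rw [if_pos h, if_pos h]
      ring_nf
    · rw [if_neg h, if_neg h, zero_div, zero_mul, zero_mul]
  rw [e1, sum_comm]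
  have e2 : ∀ w : (Option σ → J → ZMod ℓ) × (Option σ → ZMod ℓ),
      ∑ z : (Option σ → J → ZMod ℓ) × (Option σ → ZMod ℓ), ∑ γ : ZMod ℓ,
          (if Hk H κ₀ b w.1 w.2 then C⁻¹ else 0) *
            (ee (-(∑ s, ∑ j, z.1 s j * w.1 s j + ∑ s, z.2 s * w.2 s)) *
              if (∀ u ∈ 𝒰, (∀ r, thet τ b z.1 z.2 u (some r) = 0) ∧
                thet τ b z.1 z.2 u none = γ) then ee (γ * (n : ZMod ℓ)) else 0) =
      (if Hk H κ₀ b w.1 w.2 then C⁻¹ else 0) *
        ((if (n : ZMod ℓ) - w.2 none = 0 then (ℓ : ℂ) else 0) *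
          ∏ s, locSum (tauS τ s) 𝒰 (b s) (w.1 s) (w.2 s)) := by
    intro w
    rw [sum_comm, ← sum_ee, Finset.sum_mul, Finset.mul_sum]
    refine sum_congr rfl fun γ _ => ?_
    rw [← Finset.mul_sum, sum_eta_mu]
  simp only [e2]
  rw [Fintype.sum_prod_type, mul_sum]
  refine sum_congr rfl fun y _ => ?_
  rw [Finset.sum_eq_single (kn κ₀ n)]
  · have h1 : (n : ZMod ℓ) - kn κ₀ n none = 0 := sub_self _
    rw [if_pos h1]
    by_cases h : H b y (kn κ₀ n)
    · have h2 : Hk H κ₀ b y (kn κ₀ n) := ⟨h, fun r => rfl⟩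
      rw [if_pos h2, if_pos h]
      ring
    · have h2 : ¬ Hk H κ₀ b y (kn κ₀ n) := fun h' => h h'.1
      rw [if_neg h2, if_neg h, zero_mul, mul_zero]
  · intro κ _ hκ
    by_cases h : Hk H κ₀ b y κ
    · by_cases h1 : (n : ZMod ℓ) - κ none = 0
      · exfalso
        apply hκ
        funext s
        rcases s with _ | r
        · exact (sub_eq_zero.1 h1).symm
        · exact h.2 r
      · rw [if_neg h1, zero_mul, mul_zero]
    · rw [if_neg h, zero_mul]
  · intro h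
    exact absurd (mem_univ _) h

end Pool.Agent.Helper54.PT
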